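import Pool.Agent.Y800.Lin

/-! Statements for the patching lemma (seat helper800). -/

set_option autoImplicit false

namespace Pool.Agent.Y803.PT

open Matrix Module Pool.Agent.Y800

/-- **PT-CLIFF** (Clifford): the restriction of a semisimple representation to a normal subgroup is
semisimple. -/
def Cliff : Prop := ∀ (G : Type) [Group G] (k : Type) [Field k] (n : ℕ) (ρ : G →* GL (Fin n) k)
  (N : Subgroup G) [N.Normal], IsSemisimpleRep ρ → IsSemisimpleRep (ρ.comp N.subtype)

/-- **PT-MASCHKE**: in characteristic zero a representation whose restriction to a subgroup of finite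
index is semisimple is semisimple. -/
def Masch : Prop := ∀ (G : Type) [Group G] (k : Type) [Field k] [CharZero k] (n : ℕ)
  (ρ : G →* GL (Fin n) k) (H : Subgroup G) [H.FiniteIndex],
  IsSemisimpleRep (ρ.comp H.subtype) → IsSemisimpleRep ρ

/-- **PT-BN** (Brauer-Nesbitt): in characteristic zero two semisimple representations with equal traces
are isomorphic. -/
def BN : Prop := ∀ (G : Type) [Group G] (k : Type) [Field k] [CharZero k] (n : ℕ)
  (ρ σ : G →* GL (Fin n) k), IsSemisimpleRep ρ → IsSemisimpleRep σ →
  (∀ g, (ρ g : Matrix (Fin n) (Fin n) k).trace = (σ g : Matrix (Fin n) (Fin n) k).trace) →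
  ∃ x : GL (Fin n) k, ∀ g, ρ g = x * σ g * x⁻¹

end Pool.Agent.Y803.PT
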