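import Pool.Agent.Y801.LG.NF
import Pool.Agent.W401.Cheb.Frob
import Pool.Agent.Y800.Null

/-! Almost all places are unramified in a finite extension; Frobenius elements in cosets. -/

set_option autoImplicit false
set_option linter.all false

namespace Pool.Agent.Y803.PT

open NumberField IsDedekindDomain Pool.Agent.W401.Cheb Pool.Agent.W401.Frob Topology

variable {K : Type} [Field K] [NumberField K]

/-- `Q` is a maximal ideal above `v` -/
def Over (v : HeightOneSpectrum (𝓞 K)) (Q : Ideal (𝓞 (AlgebraicClosure K))) : Prop :=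
  Q.IsMaximal ∧ Q.comap (algebraMap (𝓞 K) (𝓞 (AlgebraicClosure K))) = v.asIdeal

/-- inertia at `Q` -/
def Inr (Q : Ideal (𝓞 (AlgebraicClosure K))) (σ : GK K) : Prop :=
  ∀ x : 𝓞 (AlgebraicClosure K), σ • x - x ∈ Q

/-- Frobenius at `Q` -/
def Frb (v : HeightOneSpectrum (𝓞 K)) (Q : Ideal (𝓞 (AlgebraicClosure K))) (σ : GK K) : Prop :=
  ∀ x : 𝓞 (AlgebraicClosure K), σ • x - x ^ Ideal.absNorm v.asIdeal ∈ Q

theorem finite_mem (m : 𝓞 K) (hm : m ≠ 0) : {v : HeightOneSpectrum (𝓞 K) | m ∈ v.asIdeal}.Finite := by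
  have hI : (Ideal.span {m}) ≠ 0 := by
    rw [Ne, Ideal.zero_eq_bot, Ideal.span_singleton_eq_bot]; exact hm
  refine (Ideal.finite_factors hI).subset ?_
  intro v hv
  rw [Set.mem_setOf_eq] at hv ⊢
  rw [Ideal.dvd_iff_le, Ideal.span_singleton_le_iff_mem]
  exact hv

theorem unr_finite (N : Subgroup (GK K)) (hN : IsOpen (N : Set (GK K))) :
    {v : HeightOneSpectrum (𝓞 K) | ∃ Q, Over v Q ∧ ∃ σ, Inr Q σ ∧ σ ∉ N}.Finite := by
  classical
  have h1 : (N : Set (GK K)) ∈ 𝓝 (1 : GK K) := hN.mem_nhds N.one_mem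
  obtain ⟨E, hE, hEN⟩ := (krullTopology_mem_nhds_one_iff K (AlgebraicClosure K) _).1 h1
  haveI := hE
  obtain ⟨α, hα⟩ := Field.exists_primitive_element K E
  -- an integral generator
  have hint : IsIntegral ℤ ((α : AlgebraicClosure K)) ∨ True := Or.inr trivial
  obtain ⟨m, hm0, hm⟩ : ∃ m : ℤ, m ≠ 0 ∧ IsIntegral ℤ ((m : AlgebraicClosure K) * (α : AlgebraicClosure K)) := by
    have halg : IsAlgebraic ℤ (α : AlgebraicClosure K) := by
      have h2 : IsAlgebraic ℚ (α : AlgebraicClosure K) := Pool.Agent.Y800.isAlgebraic_gen K _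
      exact (IsFractionRing.isAlgebraic_iff ℤ ℚ (AlgebraicClosure K)).2 h2
    obtain ⟨m, hm0, hm⟩ := halg.exists_integral_multiple
    exact ⟨m, hm0, by simpa [zsmul_eq_mul] using hm⟩
  set θ : 𝓞 (AlgebraicClosure K) := ⟨(m : AlgebraicClosure K) * (α : AlgebraicClosure K), hm⟩ with hθ
  have hfix : ∀ σ : GK K, σ • θ = θ → σ ∈ N := by
    intro σ hσ
    apply hEN
    have h2 : σ ((m : AlgebraicClosure K) * (α : AlgebraicClosure K)) =
        (m : AlgebraicClosure K) * (α : AlgebraicClosure K) :=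
      congrArg (fun z : 𝓞 (AlgebraicClosure K) => (z : AlgebraicClosure K)) hσ
    have h3 : σ (α : AlgebraicClosure K) = α := by
      rw [map_mul, map_intCast] at h2
      have hm' : (m : AlgebraicClosure K) ≠ 0 := by exact_mod_cast hm0
      exact mul_left_cancel₀ hm' h2
    show σ ∈ E.fixingSubgroup
    rw [IntermediateField.mem_fixingSubgroup_iff]
    intro x hx
    have h4 : (⟨x, hx⟩ : E) ∈ IntermediateField.adjoin K {α} := by rw [hα]; trivial
    have h5 : ∀ y : E, y ∈ IntermediateField.adjoin K {α} → σ (y : AlgebraicClosure K) = y := by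
      intro y hy
      induction hy using IntermediateField.adjoin_induction with
      | mem z hz => rw [Set.mem_singleton_iff] at hz; rw [hz]; exact h3
      | algebraMap z => exact σ.commutes z
      | add z w _ _ hz hw => rw [IntermediateField.coe_add, map_add, hz, hw]
      | inv z _ hz => rw [IntermediateField.coe_inv, map_inv₀, hz]
      | mul z w _ _ hz hw => rw [IntermediateField.coe_mul, map_mul, hz, hw]
    exact h5 _ h4
  -- the orbit
  have horb : {t : 𝓞 (AlgebraicClosure K) | (∃ σ : GK K, t = σ • θ) ∧ t ≠ θ}.Finite := by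
    have h2 : IsIntegral K (θ : AlgebraicClosure K) := Algebra.IsIntegral.isIntegral _
    have h3 : ((minpoly K (θ : AlgebraicClosure K)).rootSet (AlgebraicClosure K)).Finite :=
      Polynomial.rootSet_finite _ _
    refine Set.Finite.subset (h3.preimage (f := fun t : 𝓞 (AlgebraicClosure K) => (t : AlgebraicClosure K))
      (fun a _ b _ hab => RingOfIntegers.ext hab)) ?_
    rintro t ⟨⟨σ, rfl⟩, -⟩
    have h4 : ((σ • θ : 𝓞 (AlgebraicClosure K)) : AlgebraicClosure K) ∈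
        (minpoly K (θ : AlgebraicClosure K)).rootSet (AlgebraicClosure K) := ?_
    · exact h4
    rw [coe_smul, Polynomial.mem_rootSet]
    refine ⟨minpoly.ne_zero h2, ?_⟩
    show Polynomial.aeval (σ.toAlgHom (θ : AlgebraicClosure K)) (minpoly K (θ : AlgebraicClosure K)) = 0
    rw [Polynomial.aeval_algHom_apply, minpoly.aeval, map_zero]
  set d : 𝓞 (AlgebraicClosure K) := ∏ t ∈ horb.toFinset, (t - θ) with hd
  have hd0 : d ≠ 0 := by
    rw [hd, Finset.prod_ne_zero_iff]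
    intro t ht
    rw [Set.Finite.mem_toFinset] at ht
    exact sub_ne_zero.2 ht.2
  have hbot : (Ideal.span {d}).comap (algebraMap (𝓞 K) (𝓞 (AlgebraicClosure K))) ≠ ⊥ :=
    Ideal.comap_ne_bot_of_integral_mem hd0 (Ideal.mem_span_singleton_self d) (Algebra.IsIntegral.isIntegral d)
  obtain ⟨c, hc, hc0⟩ := Submodule.exists_mem_ne_zero_of_ne_bot hbot
  refine (finite_mem c hc0).subset ?_
  rintro v ⟨Q, ⟨hQm, hQv⟩, σ, hσ, hσN⟩
  show c ∈ v.asIdeal
  rw [← hQv, Ideal.mem_comap]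
  have h6 : d ∈ Q := by
    have h7 : σ • θ ≠ θ := fun h => hσN (hfix σ h)
    have h8 : σ • θ ∈ horb.toFinset := by
      rw [Set.Finite.mem_toFinset]; exact ⟨⟨σ, rfl⟩, h7⟩
    rw [hd, ← Finset.mul_prod_erase _ _ h8]
    exact Q.mul_mem_right _ (hσ θ)
  exact ((Ideal.span_singleton_le_iff_mem Q).2 h6) hc

/-- Frobenius elements at unramified places in a given coset -/
theorem exists_good (N : Subgroup (GK K)) [hNn : N.Normal] (hN : IsOpen (N : Set (GK K)))
    (S : Set (HeightOneSpectrum (𝓞 K))) (hS : S.Finite) (g : GK K) :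
    ∃ v ∉ S, ∃ Q, Over v Q ∧ (∀ τ, Inr Q τ → τ ∈ N) ∧ ∃ σ, Frb v Q σ ∧ σ * g⁻¹ ∈ N := by
  let U : OpenNormalSubgroup (GK K) := { toSubgroup := N, isOpen' := hN, isNormal' := hNn }
  obtain ⟨v, hv, σ, ⟨Q, hQm, hQv, hσ⟩, τ, hτ⟩ :=
    Pool.Agent.Y801.LG.exists_frobK U (S ∪ {v | ∃ Q, Over v Q ∧ ∃ σ, Inr Q σ ∧ σ ∉ N})
      (hS.union (unr_finite N hN)) g
  rw [Set.mem_union, not_or] at hv
  refine ⟨v, hv.1, tr τ Q, ⟨tr_max τ Q hQm, (tr_comap τ Q).trans hQv⟩, ?_, τ * σ * τ⁻¹,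
    frob_conj v σ τ Q hσ, hτ⟩
  intro ρ hρ
  by_contra hcon
  exact hv.2 ⟨tr τ Q, ⟨tr_max τ Q hQm, (tr_comap τ Q).trans hQv⟩, ρ, hρ, hcon⟩

end Pool.Agent.Y803.PT
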