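import Pool.Agent.Y803.PT.Fam
import Pool.Agent.Y803.PT.Unr

/-! Compatibility from Frobenius elements, and the fields. -/

set_option autoImplicit false
set_option linter.all false

namespace Pool.Agent.Y803.PT

open Matrix Module Pool.Agent.Y800 Topology NumberField IsDedekindDomain Pool.Agent.W401.Cheb Pool.Agent.W401.Frob

variable {K : Type} [Field K] [NumberField K]
variable {k : Type} [Field k] [TopologicalSpace k] [IsTopologicalRing k] [T2Space k] {n : ℕ}

/-- the trace condition at the places where the field of `U` is locally equal to `K` -/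
def TrAt (S : Set (HeightOneSpectrum (𝓞 K))) (t : HeightOneSpectrum (𝓞 K) → k) {U : Subgroup (GK K)}
    (ρ : U →* GL (Fin n) k) : Prop :=
  ∀ v ∉ S, ∀ Q, Over v Q → (∀ σ, Inr Q σ ∨ Frb v Q σ → σ ∈ U) →
    ∀ (σ : GK K) (hσ : σ ∈ U), Frb v Q σ → (ρ ⟨σ, hσ⟩ : Matrix (Fin n) (Fin n) k).trace = t v

theorem frob_mem {v : HeightOneSpectrum (𝓞 K)} {Q : Ideal (𝓞 (AlgebraicClosure K))} (hQ : Over v Q)
    {σ τ : GK K} (hσ : Frb v Q σ) (hτ : Frb v Q τ) : Inr Q (σ⁻¹ * τ) := by
  intro x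
  set y : (𝓞 (AlgebraicClosure K)) := (σ⁻¹ * τ) • x - x with hy
  have h1 : σ • y ∈ Q := by
    have h2 : σ • y = (τ • x - x ^ Ideal.absNorm v.asIdeal) - (σ • x - x ^ Ideal.absNorm v.asIdeal) := by
      rw [hy, smul_sub, smul_smul, mul_inv_cancel_left]
      ring
    rw [h2]
    exact Q.sub_mem (hτ x) (hσ x)
  have h3 : y ^ Ideal.absNorm v.asIdeal ∈ Q := by
    have h4 := Q.sub_mem h1 (hσ y)
    rwa [sub_sub_cancel] at h4
  have hQp : Q.IsPrime := hQ.1.isPrime
  exact hQp.mem_of_pow_mem _ h3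

theorem inr_conj {Q : Ideal (𝓞 (AlgebraicClosure K))} {σ τ : GK K} (h : Inr (tr τ Q) σ) :
    Inr Q (τ⁻¹ * σ * τ) := by
  intro x
  have h1 := h (τ • x)
  rw [mem_tr, smul_sub, smul_smul, smul_smul, smul_smul, inv_mul_cancel, one_smul] at h1
  exact h1

theorem compat_of_trAt (S : Set (HeightOneSpectrum (𝓞 K))) (hS : S.Finite)
    (t : HeightOneSpectrum (𝓞 K) → k) {U V : Subgroup (GK K)} (hU : IsOpen (U : Set (GK K)))
    (hV : IsOpen (V : Set (GK K))) (ρ : U →* GL (Fin n) k) (σ : V →* GL (Fin n) k)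
    (hρ : Continuous ρ) (hσ : Continuous σ) (h₁ : TrAt S t ρ) (h₂ : TrAt S t σ) : Compat ρ σ := by
  intro g u hu
  by_contra hne
  -- the open subgroup of all `x ∈ U` with `g x g⁻¹ ∈ V`
  set W : Subgroup (GK K) := U ⊓ V.comap (MulAut.conj g).toMonoidHom with hW
  have hWmem : ∀ x, x ∈ W ↔ x ∈ U ∧ g * x * g⁻¹ ∈ V := fun x => Iff.rfl
  have hcg : Continuous fun x : GK K => g * x * g⁻¹ := by fun_prop
  have hWo : IsOpen (W : Set (GK K)) := by
    have : (W : Set (GK K)) = (U : Set (GK K)) ∩ (fun x => g * x * g⁻¹) ⁻¹' (V : Set (GK K)) := rfl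
    rw [this]
    exact hU.inter (hV.preimage hcg)
  let f : W → k := fun x => (ρ ⟨x, x.2.1⟩ : Matrix (Fin n) (Fin n) k).trace -
    (σ ⟨g * x * g⁻¹, x.2.2⟩ : Matrix (Fin n) (Fin n) k).trace
  have hf : Continuous f := by
    have h1 : Continuous fun x : W => (ρ ⟨x, x.2.1⟩ : Matrix (Fin n) (Fin n) k).trace :=
      (Units.continuous_val.comp (hρ.comp (Continuous.subtype_mk continuous_subtype_val _))).matrix_trace
    have h2 : Continuous fun x : W => (σ ⟨g * x * g⁻¹, x.2.2⟩ : Matrix (Fin n) (Fin n) k).trace :=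
      (Units.continuous_val.comp (hσ.comp (Continuous.subtype_mk (hcg.comp continuous_subtype_val) _))).matrix_trace
    exact h1.sub h2
  have hO : IsOpen {x : W | f x ≠ 0} := isOpen_compl_singleton.preimage hf
  have hO' : IsOpen (Subtype.val '' {x : W | f x ≠ 0}) := hWo.isOpenMap_subtype_val _ hO
  have huW : (u : GK K) ∈ W := ⟨u.2, hu⟩
  have huO : (u : GK K) ∈ (Subtype.val '' {x : W | f x ≠ 0}) := ⟨⟨u, huW⟩, sub_ne_zero.2 hne, rfl⟩
  have hO1 : IsOpen ((fun x => x * (u : GK K)) ⁻¹' (Subtype.val '' {x : W | f x ≠ 0})) :=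
    hO'.preimage (continuous_mul_right _)
  obtain ⟨N, hN⟩ := ProfiniteGrp.exist_openNormalSubgroup_sub_open_nhds_of_one hO1 (by
    rw [Set.mem_preimage, one_mul]; exact huO)
  haveI hNn : N.toSubgroup.Normal := N.isNormal'
  have hNW : N.toSubgroup ≤ W := by
    intro x hx
    have hx' : x ∈ ((fun x => x * (u : GK K)) ⁻¹' (Subtype.val '' {x : W | f x ≠ 0})) := hN hx
    obtain ⟨y, -, hy⟩ := hx'
    have h1 : x * (u : GK K) ∈ W := by
      have : x * (u : GK K) = y := hy.symm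
      rw [this]; exact y.2
    have h2 := W.mul_mem h1 (W.inv_mem huW)
    rwa [mul_inv_cancel_right] at h2
  obtain ⟨v, hv, Q, hQ, hin, s, hs, hsu⟩ := exists_good N.toSubgroup N.isOpen' S hS (u : GK K)
  have hsO : s * (u : GK K)⁻¹ ∈ ((fun x => x * (u : GK K)) ⁻¹' (Subtype.val '' {x : W | f x ≠ 0})) := hN hsu
  obtain ⟨y, hy0, hy⟩ := hsO
  have hys : (y : GK K) = s := by
    rw [hy]
    show s * (u : GK K)⁻¹ * u = s
    rw [inv_mul_cancel_right]
  have hsW : s ∈ W := by rw [← hys]; exact y.2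
  have hU' : ∀ τ, Inr Q τ ∨ Frb v Q τ → τ ∈ U := by
    rintro τ (hτ | hτ)
    · exact (hNW (hin τ hτ)).1
    · have h3 := (hNW (hin _ (frob_mem hQ hs hτ))).1
      have h4 := U.mul_mem hsW.1 h3
      rwa [mul_inv_cancel_left] at h4
  have hQ' : Over v (tr g Q) := ⟨tr_max g Q hQ.1, (tr_comap g Q).trans hQ.2⟩
  have hsF : Frb v (tr g Q) (g * s * g⁻¹) := frob_conj v s g Q hs
  have hV' : ∀ τ, Inr (tr g Q) τ ∨ Frb v (tr g Q) τ → τ ∈ V := by
    have hI : ∀ τ, Inr (tr g Q) τ → τ ∈ V := by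
      intro τ hτ
      have h3 := hin _ (inr_conj hτ)
      have h4 := hNn.conj_mem _ h3 g
      have e : g * (g⁻¹ * τ * g) * g⁻¹ = τ := by group
      rw [e] at h4
      have h5 : g * (g⁻¹ * τ * g) * g⁻¹ ∈ V := (hNW (hin _ (inr_conj hτ))).2
      rwa [e] at h5
    rintro τ (hτ | hτ)
    · exact hI τ hτ
    · have h3 := hI _ (frob_mem hQ' hsF hτ)
      have h5 : g * s * g⁻¹ ∈ V := hsW.2
      have h4 := V.mul_mem h5 h3
      rwa [mul_inv_cancel_left] at h4
  have e1 := h₁ v hv Q hQ hU' s hsW.1 hs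
  have e2 := h₂ v hv (tr g Q) hQ' hV' (g * s * g⁻¹) hsW.2 hsF
  apply hy0
  show (ρ ⟨y, y.2.1⟩ : Matrix (Fin n) (Fin n) k).trace -
    (σ ⟨g * y * g⁻¹, y.2.2⟩ : Matrix (Fin n) (Fin n) k).trace = 0
  have e3 : (⟨y, y.2.1⟩ : U) = ⟨s, hsW.1⟩ := Subtype.ext hys
  have e4 : (⟨g * y * g⁻¹, y.2.2⟩ : V) = ⟨g * s * g⁻¹, hsW.2⟩ := Subtype.ext (by
    show g * (y : GK K) * g⁻¹ = g * s * g⁻¹
    rw [hys])
  rw [e3, e4, e1, e2, sub_self]

section fields

variable {F : Type} [Field F] [CharZero F]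

instance : IsGalois F (AlgebraicClosure F) := inferInstance

/-- disjointness of the fields gives a decomposition of the group -/
theorem decomp (E M : IntermediateField F (AlgebraicClosure F)) [FiniteDimensional F M] [IsGalois F M]
    (h : E ⊓ M = ⊥) (x : Gal(AlgebraicClosure F/F)) :
    ∃ u ∈ E.fixingSubgroup, ∃ y ∈ M.fixingSubgroup, x = u * y := by
  haveI hn : M.fixingSubgroup.Normal := (InfiniteGalois.normal_iff_isGalois M).2 inferInstance
  have hopen : IsOpen ((E.fixingSubgroup ⊔ M.fixingSubgroup : Subgroup _) : Set Gal(AlgebraicClosure F/F)) :=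
    Subgroup.isOpen_mono le_sup_right (IntermediateField.fixingSubgroup_isOpen M)
  have hclosed := Subgroup.isClosed_of_isOpen _ hopen
  let H : ClosedSubgroup Gal(AlgebraicClosure F/F) := ⟨E.fixingSubgroup ⊔ M.fixingSubgroup, hclosed⟩
  have h1 := InfiniteGalois.fixingSubgroup_fixedField H
  have h2 : IntermediateField.fixedField (E.fixingSubgroup ⊔ M.fixingSubgroup) = ⊥ := by
    rw [eq_bot_iff, ← h]
    refine le_inf ?_ ?_
    · rw [← InfiniteGalois.fixedField_fixingSubgroup E]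
      exact IntermediateField.fixedField_antitone (by
        rw [InfiniteGalois.fixedField_fixingSubgroup E]; exact le_sup_left)
    · rw [← InfiniteGalois.fixedField_fixingSubgroup M]
      exact IntermediateField.fixedField_antitone (by
        rw [InfiniteGalois.fixedField_fixingSubgroup M]; exact le_sup_right)
  have h3 : (E.fixingSubgroup ⊔ M.fixingSubgroup : Subgroup Gal(AlgebraicClosure F/F)) = ⊤ := by
    rw [← IntermediateField.fixingSubgroup_bot, ← h2]
    exact h1.symm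
  have h4 : x ∈ ((E.fixingSubgroup ⊔ M.fixingSubgroup : Subgroup _) : Set Gal(AlgebraicClosure F/F)) := by
    rw [h3]; trivial
  rw [Subgroup.mul_normal] at h4
  obtain ⟨u, hu, y, hy, hxy⟩ := Set.mem_mul.1 h4
  exact ⟨u, hu, y, hy, hxy.symm⟩

/-- an open normal subgroup belongs to a finite Galois extension -/
theorem field_of (N : Subgroup Gal(AlgebraicClosure F/F)) (hn : N.Normal)
    (hN : IsOpen (N : Set Gal(AlgebraicClosure F/F))) :
    ∃ M : IntermediateField F (AlgebraicClosure F), FiniteDimensional F M ∧ IsGalois F M ∧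
      M.fixingSubgroup = N := by
  let H : ClosedSubgroup Gal(AlgebraicClosure F/F) := ⟨N, Subgroup.isClosed_of_isOpen _ hN⟩
  have h1 : (IntermediateField.fixedField N).fixingSubgroup = N := InfiniteGalois.fixingSubgroup_fixedField H
  have h2 := (InfiniteGalois.isOpen_and_normal_iff_finite_and_isGalois (IntermediateField.fixedField N)).1 (by
    rw [h1]; exact ⟨hN, hn⟩)
  exact ⟨_, h2.1, h2.2, h1⟩

end fields

end Pool.Agent.Y803.PT
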