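import Pool.Agent.Y803.PT.Main

/-! The patching lemma for families of open subgroups of a compact group. -/

set_option autoImplicit false
set_option linter.all false

namespace Pool.Agent.Y803.PT

open Matrix Module Pool.Agent.Y800 Topology

section

variable {G : Type} [Group G] [TopologicalSpace G] [IsTopologicalGroup G] [CompactSpace G]
variable {k : Type} [Field k] [CharZero k] [TopologicalSpace k] [IsTopologicalRing k] {n : ℕ}

omit [TopologicalSpace k] [IsTopologicalRing k] [CompactSpace G] in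
theorem res_ss (cl : Cliff) (ma : Masch) (U : Subgroup G) (N : Subgroup G) [N.Normal] (hNU : N ≤ U)
    [N.FiniteIndex] (ρ : G →* GL (Fin n) k) (hss : IsSemisimpleRep ρ) :
    IsSemisimpleRep (ρ.comp U.subtype) := by
  have h5 := cl G k n ρ N hss
  haveI : (N.subgroupOf U).FiniteIndex := inferInstance
  refine ma U k n _ (N.subgroupOf U) ?_
  intro W hW
  obtain ⟨W', hW', hc⟩ := h5 W (by
    rintro ⟨g, hg⟩ w hw
    exact hW ⟨⟨g, hNU hg⟩, hg⟩ w hw)
  refine ⟨W', ?_, hc⟩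
  rintro ⟨⟨g, hg'⟩, hg⟩ w hw
  exact hW' ⟨g, hg⟩ w hw

/-- **Families.** -/
theorem P2 (cl : Cliff) (ma : Masch) {ι : Type*} (U : ι → Subgroup G) (hU : ∀ i, IsOpen (U i : Set G))
    (r : ∀ i, U i →* GL (Fin n) k) (hr : ∀ i, Continuous (r i)) (hss : ∀ i, IsSemisimpleRep (r i))
    (hc : ∀ i j, Compat (r i) (r j))
    (hgen : ∀ N : Subgroup G, N.Normal → IsOpen (N : Set G) → ∃ i, ∀ x : G, ∃ u ∈ U i, ∃ h ∈ N, x = u * h) :
    ∃ ρ : G →* GL (Fin n) k, Continuous ρ ∧ IsSemisimpleRep ρ ∧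
      ∀ i, ∀ u : U i, (ρ u : Matrix (Fin n) (Fin n) k).trace = (r i u : Matrix (Fin n) (Fin n) k).trace := by
  obtain ⟨i₁, -⟩ := hgen ⊤ inferInstance isOpen_univ
  obtain ⟨N, hNU, hNn, hNo, hst⟩ := exists_stable (U i₁) (hU i₁) (r i₁)
  haveI := hNn
  obtain ⟨i₂, hi₂⟩ := hgen N hNn hNo
  obtain ⟨ρ, hρc, hρss, hρ₂, hρ₁, hρst⟩ := P1 cl ma (U i₁) (hU i₁) (r i₁) (hc i₁ i₁) N hNo hNU hst
    (U i₂) (hU i₂) (r i₂) (hss i₁) (hss i₂) (hr i₂) (hc i₁ i₂) hi₂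
  refine ⟨ρ, hρc, hρss, fun i => ?_⟩
  -- a small normal subgroup
  set N' : Subgroup G := N ⊓ (U i ⊓ (U i₁ ⊓ U i₂)).normalCore with hN'
  have hN'n : N'.Normal := inferInstance
  have hN'o : IsOpen (N' : Set G) := by
    rw [hN', Subgroup.coe_inf]
    refine hNo.inter (core_open _ ?_)
    rw [Subgroup.coe_inf, Subgroup.coe_inf]
    exact (hU i).inter ((hU i₁).inter (hU i₂))
  have hN'N : N' ≤ N := inf_le_left
  have hN'c : N' ≤ U i ⊓ (U i₁ ⊓ U i₂) := inf_le_right.trans (Subgroup.normalCore_le _)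
  have hN'i : N' ≤ U i := hN'c.trans inf_le_left
  have hN'1 : N' ≤ U i₁ := hN'c.trans (inf_le_right.trans inf_le_left)
  have hN'2 : N' ≤ U i₂ := hN'c.trans (inf_le_right.trans inf_le_right)
  obtain ⟨i₃, hi₃⟩ := hgen N' hN'n hN'o
  have hst' : ∀ (V : Subgroup G), V ≤ N → IsOpen (V : Set G) → ∀ h ∈ N,
      (ρ h : Matrix (Fin n) (Fin n) k) ∈ Sp (ρ.comp V.subtype) := by
    intro V hV hVo h hh
    have h1 := hρst V hV hVo ⟨h, hh⟩
    have hle : Sp ((ρ.comp (U i₁).subtype).comp (Subgroup.inclusion (hV.trans hNU))) ≤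
        Sp (ρ.comp V.subtype) := by
      unfold Sp
      refine Submodule.span_mono ?_
      rintro _ ⟨w, rfl⟩
      exact ⟨w, rfl⟩
    exact hle h1
  -- step 1
  have step1 : ∀ u : U i₃, (ρ u : Matrix (Fin n) (Fin n) k).trace =
      (r i₃ u : Matrix (Fin n) (Fin n) k).trace := by
    intro u
    refine lemA cl (U i₃) (U i₂) N (ρ.comp (U i₃).subtype) (r i₃) ?_ ?_ ?_ (hss i₃) ?_ u
    · intro x hx
      obtain ⟨y, hy, p, hp, h1⟩ := hi₂ x
      obtain ⟨z, hz, m, hm, h2⟩ := hi₃ y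
      have hzy : z = y * m⁻¹ := by rw [h2]; group
      refine ⟨z, ?_, m * p, N.mul_mem (hN'N hm) hp, ?_, hz, ?_⟩
      · rw [hzy]; exact (U i₂).mul_mem hy ((U i₂).inv_mem (hN'2 hm))
      · rw [h1, h2]; group
      · have : m * p = z⁻¹ * x := by rw [h1, h2]; group
        rw [this]
        exact (U i₃).mul_mem ((U i₃).inv_mem hz) hx
    · intro y hy hy2
      have h1 := (hc i₂ i₃).eq y hy2 hy
      rw [← h1]
      show (ρ y : Matrix (Fin n) (Fin n) k).trace = _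
      rw [← hρ₂ ⟨y, hy2⟩]
    · intro p hp hpN
      have h1 := (hc i₁ i₃).eq p (hNU hpN) hp
      rw [← h1]
      exact hρ₁ ⟨p, hNU hpN⟩
    · intro p hp hpN
      have h1 := hst' (U i₃ ⊓ (U i₂ ⊓ N)) (inf_le_right.trans inf_le_right) (by
        rw [Subgroup.coe_inf, Subgroup.coe_inf]
        exact (hU i₃).inter ((hU i₂).inter hNo)) p hpN
      exact h1
  -- step 2
  intro u
  refine lemA cl (U i) (U i₃) N' (ρ.comp (U i).subtype) (r i) ?_ ?_ ?_ (hss i) ?_ u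
  · intro x hx
    obtain ⟨z, hz, m, hm, h2⟩ := hi₃ x
    refine ⟨z, hz, m, hm, h2, ?_, hN'i hm⟩
    have : z = x * m⁻¹ := by rw [h2]; group
    rw [this]
    exact (U i).mul_mem hx ((U i).inv_mem (hN'i hm))
  · intro y hy hy3
    have h1 := (hc i₃ i).eq y hy3 hy
    rw [← h1]
    exact step1 ⟨y, hy3⟩
  · intro p hp hpN
    have h1 := (hc i₁ i).eq p (hN'1 hpN) hp
    rw [← h1]
    exact hρ₁ ⟨p, hN'1 hpN⟩
  · intro p hp hpN
    exact hst' (U i ⊓ (U i₃ ⊓ N')) ((inf_le_right.trans inf_le_right).trans hN'N) (by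
      rw [Subgroup.coe_inf, Subgroup.coe_inf]
      exact (hU i).inter ((hU i₃).inter hN'o)) p (hN'N hpN)

/-- **Uniqueness.** -/
theorem uniq (cl : Cliff) {ι : Type*} (U : ι → Subgroup G) (hU : ∀ i, IsOpen (U i : Set G))
    (hgen : ∀ N : Subgroup G, N.Normal → IsOpen (N : Set G) → ∃ i, ∀ x : G, ∃ u ∈ U i, ∃ h ∈ N, x = u * h)
    (ρ ρ' : G →* GL (Fin n) k) (hss' : IsSemisimpleRep ρ')
    (h : ∀ i, ∀ u ∈ U i, (ρ u : Matrix (Fin n) (Fin n) k).trace = (ρ' u : Matrix (Fin n) (Fin n) k).trace)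
    (g : G) : (ρ g : Matrix (Fin n) (Fin n) k).trace = (ρ' g : Matrix (Fin n) (Fin n) k).trace := by
  obtain ⟨i₁, -⟩ := hgen ⊤ inferInstance isOpen_univ
  obtain ⟨N, hNU, hNn, hNo, hst⟩ := exists_stable (U i₁) (hU i₁) (ρ.comp (U i₁).subtype)
  haveI := hNn
  obtain ⟨i₂, hi₂⟩ := hgen N hNn hNo
  refine traces_extend ρ ρ' (U i₂) N hi₂ (h i₂) (fun p hp => h i₁ p (hNU hp)) (cl G k n ρ' N hss') ?_ g
  intro p hp
  have h1 := hst (U i₂ ⊓ N) inf_le_right (by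
    rw [Subgroup.coe_inf]; exact (hU i₂).inter hNo) ⟨p, hp⟩
  have hle : Sp ((ρ.comp (U i₁).subtype).comp (Subgroup.inclusion ((inf_le_right : U i₂ ⊓ N ≤ N).trans hNU))) ≤
      Sp (ρ.comp (U i₂ ⊓ N).subtype) := by
    unfold Sp
    refine Submodule.span_mono ?_
    rintro _ ⟨w, rfl⟩
    exact ⟨w, rfl⟩
  exact hle h1

end

end Pool.Agent.Y803.PT
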