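import Pool.Agent.Y803.PT.Stm

/-! Extension of equalities of traces, and gluing of representations. -/

set_option autoImplicit false
set_option linter.all false

namespace Pool.Agent.Y803.PT

open Matrix Module Pool.Agent.Y800

section gam

variable {W : Type*} [Group W] {k : Type} [Field k] {n : ℕ}

/-- the span of the pairs `(ρ w, σ w)` -/
def Gam (ρ σ : W →* GL (Fin n) k) :
    Submodule k (Matrix (Fin n) (Fin n) k × Matrix (Fin n) (Fin n) k) :=
  Submodule.span k {x | ∃ w : W, x = ((ρ w : Matrix (Fin n) (Fin n) k), (σ w : Matrix (Fin n) (Fin n) k))}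

variable (ρ σ : W →* GL (Fin n) k)

theorem gam_mem (w : W) : ((ρ w : Matrix (Fin n) (Fin n) k), (σ w : Matrix (Fin n) (Fin n) k)) ∈ Gam ρ σ :=
  Submodule.subset_span ⟨w, rfl⟩

theorem gam_mul {a b : Matrix (Fin n) (Fin n) k × Matrix (Fin n) (Fin n) k} (ha : a ∈ Gam ρ σ)
    (hb : b ∈ Gam ρ σ) : a * b ∈ Gam ρ σ := by
  induction ha using Submodule.span_induction with
  | mem x hx =>
    obtain ⟨w, rfl⟩ := hx
    induction hb using Submodule.span_induction with
    | mem y hy =>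
      obtain ⟨w', rfl⟩ := hy
      refine Submodule.subset_span ⟨w * w', ?_⟩
      rw [Prod.mk_mul_mk, map_mul, map_mul, Units.val_mul, Units.val_mul]
    | zero => rw [mul_zero]; exact zero_mem _
    | add x y _ _ hx hy => rw [mul_add]; exact add_mem hx hy
    | smul c x _ hx => rw [mul_smul_comm]; exact Submodule.smul_mem _ _ hx
  | zero => rw [zero_mul]; exact zero_mem _
  | add x y _ _ hx hy => rw [add_mul]; exact add_mem hx hy
  | smul c x _ hx => rw [smul_mul_assoc]; exact Submodule.smul_mem _ _ hx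

theorem gam_snd {a : Matrix (Fin n) (Fin n) k × Matrix (Fin n) (Fin n) k} (ha : a ∈ Gam ρ σ) :
    a.2 ∈ Sp σ := by
  induction ha using Submodule.span_induction with
  | mem x hx =>
    obtain ⟨w, rfl⟩ := hx
    exact mem_Sp σ w
  | zero => exact zero_mem _
  | add x y _ _ hx hy => exact add_mem hx hy
  | smul c x _ hx => exact Submodule.smul_mem _ _ hx

theorem gam_fst {a : Matrix (Fin n) (Fin n) k} (ha : a ∈ Sp ρ) : ∃ b, (a, b) ∈ Gam ρ σ := by
  unfold Sp at ha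
  induction ha using Submodule.span_induction with
  | mem x hx =>
    obtain ⟨w, rfl⟩ := hx
    exact ⟨_, gam_mem ρ σ w⟩
  | zero => exact ⟨0, zero_mem _⟩
  | add x y _ _ hx hy =>
    obtain ⟨b, hb⟩ := hx
    obtain ⟨c, hc⟩ := hy
    exact ⟨b + c, add_mem hb hc⟩
  | smul c x _ hx =>
    obtain ⟨b, hb⟩ := hx
    exact ⟨c • b, Submodule.smul_mem _ c hb⟩

/-- an equality of traces of the generators -/
theorem gam_tr (A B : Matrix (Fin n) (Fin n) k)
    (h : ∀ w, (A * (ρ w : Matrix (Fin n) (Fin n) k)).trace = (B * (σ w : Matrix (Fin n) (Fin n) k)).trace)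
    {a : Matrix (Fin n) (Fin n) k × Matrix (Fin n) (Fin n) k} (ha : a ∈ Gam ρ σ) :
    (A * a.1).trace = (B * a.2).trace := by
  induction ha using Submodule.span_induction with
  | mem x hx =>
    obtain ⟨w, rfl⟩ := hx
    exact h w
  | zero => simp
  | add x y _ _ hx hy =>
    rw [Prod.fst_add, Prod.snd_add, mul_add, mul_add, Matrix.trace_add, Matrix.trace_add, hx, hy]
  | smul c x _ hx =>
    rw [Prod.smul_fst, Prod.smul_snd, mul_smul_comm, mul_smul_comm, Matrix.trace_smul, Matrix.trace_smul, hx]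

variable [CharZero k]

theorem zero_of_tr (hss : IsSemisimpleRep σ) {x : Matrix (Fin n) (Fin n) k} (hx : x ∈ Sp σ)
    (ht : ∀ w, ((σ w : Matrix (Fin n) (Fin n) k) * x).trace = 0) : x = 0 :=
  eq_zero_of_trace σ (fun m hm _ => by exact_mod_cast (by omega : m ≠ 0)) hss hx ht

theorem gam_unique (hss : IsSemisimpleRep σ)
    (htr : ∀ w, (ρ w : Matrix (Fin n) (Fin n) k).trace = (σ w : Matrix (Fin n) (Fin n) k).trace)
    {a b b' : Matrix (Fin n) (Fin n) k} (h : (a, b) ∈ Gam ρ σ) (h' : (a, b') ∈ Gam ρ σ) : b = b' := by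
  have h1 : ((0 : Matrix (Fin n) (Fin n) k), b - b') ∈ Gam ρ σ := by
    have := sub_mem h h'
    rwa [Prod.mk_sub_mk, sub_self] at this
  rw [← sub_eq_zero]
  refine zero_of_tr σ hss (gam_snd ρ σ h1) fun w => ?_
  have h2 := gam_tr ρ σ (ρ w : Matrix (Fin n) (Fin n) k) (σ w : Matrix (Fin n) (Fin n) k) (fun w' => by
    rw [← Units.val_mul, ← Units.val_mul, ← map_mul, ← map_mul, htr]) h1
  rw [mul_zero, Matrix.trace_zero] at h2
  exact h2.symm

end gam

section lemmaA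

variable {X : Type*} [Group X] {k : Type} [Field k] [CharZero k] {n : ℕ}

/-- **Lemma A.** -/
theorem traces_extend (ρ σ : X →* GL (Fin n) k) (Y P : Subgroup X)
    (hYP : ∀ x : X, ∃ y ∈ Y, ∃ p ∈ P, x = y * p)
    (hY : ∀ y ∈ Y, (ρ y : Matrix (Fin n) (Fin n) k).trace = (σ y : Matrix (Fin n) (Fin n) k).trace)
    (hP : ∀ p ∈ P, (ρ p : Matrix (Fin n) (Fin n) k).trace = (σ p : Matrix (Fin n) (Fin n) k).trace)
    (hss : IsSemisimpleRep (σ.comp P.subtype))
    (hsp : ∀ p ∈ P, (ρ p : Matrix (Fin n) (Fin n) k) ∈ Sp (ρ.comp (Y ⊓ P).subtype)) (x : X) :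
    (ρ x : Matrix (Fin n) (Fin n) k).trace = (σ x : Matrix (Fin n) (Fin n) k).trace := by
  obtain ⟨y, hy, p, hp, rfl⟩ := hYP x
  obtain ⟨b, hb⟩ := gam_fst (ρ.comp (Y ⊓ P).subtype) (σ.comp (Y ⊓ P).subtype) (hsp p hp)
  have hbσ : b = (σ p : Matrix (Fin n) (Fin n) k) := by
    rw [← sub_eq_zero]
    refine zero_of_tr (σ.comp P.subtype) hss (sub_mem ?_ (mem_Sp (σ.comp P.subtype) ⟨p, hp⟩)) fun w => ?_
    · have h1 := gam_snd _ _ hb
      have h2 : Sp (σ.comp (Y ⊓ P).subtype) ≤ Sp (σ.comp P.subtype) := by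
        unfold Sp
        refine Submodule.span_mono ?_
        rintro _ ⟨w, rfl⟩
        exact ⟨⟨w, w.2.2⟩, rfl⟩
      exact h2 h1
    · have h3 := gam_tr (ρ.comp (Y ⊓ P).subtype) (σ.comp (Y ⊓ P).subtype)
        (ρ w : Matrix (Fin n) (Fin n) k) (σ w : Matrix (Fin n) (Fin n) k) (fun w' => by
          have h4 := hP _ (P.mul_mem w.2 w'.2.2)
          rw [map_mul, map_mul, Units.val_mul, Units.val_mul] at h4
          exact h4) hb
      have h5 := hP _ (P.mul_mem w.2 hp)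
      rw [map_mul, map_mul, Units.val_mul, Units.val_mul] at h5
      rw [mul_sub, Matrix.trace_sub, sub_eq_zero]
      exact h3.symm.trans h5
  rw [hbσ] at hb
  have h6 := gam_tr (ρ.comp (Y ⊓ P).subtype) (σ.comp (Y ⊓ P).subtype)
    (ρ y : Matrix (Fin n) (Fin n) k) (σ y : Matrix (Fin n) (Fin n) k) (fun w' => by
      have h4 := hY _ (Y.mul_mem hy w'.2.1)
      rw [map_mul, map_mul, Units.val_mul, Units.val_mul] at h4
      exact h4) hb
  rw [map_mul, map_mul, Units.val_mul, Units.val_mul]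
  exact h6

end lemmaA

section glue

variable {G : Type*} [Group G] {k : Type} [Field k] [CharZero k] {n : ℕ}

/-- **Gluing.** -/
theorem glue (N U : Subgroup G) [N.Normal] (hUN : ∀ x : G, ∃ u ∈ U, ∃ h ∈ N, x = u * h)
    (ρ₁ : N →* GL (Fin n) k) (ρ₂ : U →* GL (Fin n) k)
    (htr : ∀ w : (U ⊓ N : Subgroup G),
      (ρ₁ (Subgroup.inclusion inf_le_right w) : Matrix (Fin n) (Fin n) k).trace =
        (ρ₂ (Subgroup.inclusion inf_le_left w) : Matrix (Fin n) (Fin n) k).trace)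
    (hss : IsSemisimpleRep (ρ₂.comp (Subgroup.inclusion (inf_le_left : U ⊓ N ≤ U))))
    (hsp : ∀ h : N, (ρ₁ h : Matrix (Fin n) (Fin n) k) ∈
      Sp (ρ₁.comp (Subgroup.inclusion (inf_le_right : U ⊓ N ≤ N))))
    (hconj : ∀ (g : G) (hg : g ∈ U) (h : N),
      (ρ₁ ⟨g * h * g⁻¹, (inferInstance : N.Normal).conj_mem h h.2 g⟩ : Matrix (Fin n) (Fin n) k).trace =
        (ρ₁ h : Matrix (Fin n) (Fin n) k).trace) :
    ∃ ρ : G →* GL (Fin n) k, (∀ u : U, ρ u = ρ₂ u) ∧
      ∀ h : N, ((ρ₁ h : Matrix (Fin n) (Fin n) k), (ρ h : Matrix (Fin n) (Fin n) k)) ∈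
        Gam (ρ₁.comp (Subgroup.inclusion (inf_le_right : U ⊓ N ≤ N)))
          (ρ₂.comp (Subgroup.inclusion (inf_le_left : U ⊓ N ≤ U))) := by
  classical
  set r₁ := ρ₁.comp (Subgroup.inclusion (inf_le_right : U ⊓ N ≤ N)) with hr₁
  set r₂ := ρ₂.comp (Subgroup.inclusion (inf_le_left : U ⊓ N ≤ U)) with hr₂
  have htr' : ∀ w, (r₁ w : Matrix (Fin n) (Fin n) k).trace = (r₂ w : Matrix (Fin n) (Fin n) k).trace := htr
  choose M hM using fun h : N => gam_fst r₁ r₂ (hsp h)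
  have huniq : ∀ (h : N) (b : Matrix (Fin n) (Fin n) k),
      ((ρ₁ h : Matrix (Fin n) (Fin n) k), b) ∈ Gam r₁ r₂ → b = M h := fun h b hb =>
    gam_unique r₁ r₂ hss htr' hb (hM h)
  have hMmul : ∀ h h' : N, M (h * h') = M h * M h' := by
    intro h h'
    symm
    apply huniq
    have := gam_mul r₁ r₂ (hM h) (hM h')
    rwa [Prod.mk_mul_mk, ← Units.val_mul, ← map_mul] at this
  have hMw : ∀ w : (U ⊓ N : Subgroup G), M ⟨w, w.2.2⟩ = (ρ₂ ⟨w, w.2.1⟩ : Matrix (Fin n) (Fin n) k) := by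
    intro w
    symm
    exact huniq _ _ (gam_mem r₁ r₂ w)
  have hM1 : M 1 = 1 := by
    have h1 := hMw 1
    have h2 : (⟨((1 : (U ⊓ N : Subgroup G)) : G), (1 : (U ⊓ N : Subgroup G)).2.1⟩ : U) = 1 := rfl
    rw [h2, map_one, Units.val_one] at h1
    exact h1
  have hMtr : ∀ (w : (U ⊓ N : Subgroup G)) (h : N),
      ((r₁ w : Matrix (Fin n) (Fin n) k) * (ρ₁ h : Matrix (Fin n) (Fin n) k)).trace =
        ((r₂ w : Matrix (Fin n) (Fin n) k) * M h).trace := fun w h =>
    gam_tr r₁ r₂ (r₁ w : Matrix (Fin n) (Fin n) k) (r₂ w : Matrix (Fin n) (Fin n) k) (fun w' => by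
      rw [← Units.val_mul, ← Units.val_mul, ← map_mul, ← map_mul, htr']) (hM h)
  -- conjugation
  have hMconj : ∀ (g : U) (h : N), (ρ₂ g : Matrix (Fin n) (Fin n) k) * M h *
      ((ρ₂ g⁻¹ : GL (Fin n) k) : Matrix (Fin n) (Fin n) k) =
        M ⟨g * h * g⁻¹, (inferInstance : N.Normal).conj_mem h h.2 g⟩ := by
    intro g h
    rw [← sub_eq_zero]
    refine zero_of_tr r₂ hss (sub_mem ?_ (gam_snd r₁ r₂ (hM _))) fun w => ?_
    · -- conjugation preserves the span
      have key : ∀ b ∈ Sp r₂, (ρ₂ g : Matrix (Fin n) (Fin n) k) * b *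
          ((ρ₂ g⁻¹ : GL (Fin n) k) : Matrix (Fin n) (Fin n) k) ∈ Sp r₂ := by
        intro b hb
        unfold Sp at hb
        induction hb using Submodule.span_induction with
        | mem x hx =>
          obtain ⟨w, rfl⟩ := hx
          have h1 : (g : G) * w * (g : G)⁻¹ ∈ U ⊓ N :=
            ⟨U.mul_mem (U.mul_mem g.2 w.2.1) (U.inv_mem g.2), (inferInstance : N.Normal).conj_mem w w.2.2 g⟩
          have h2 : (r₂ ⟨_, h1⟩ : GL (Fin n) k) = ρ₂ g * r₂ w * ρ₂ g⁻¹ := by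
            rw [hr₂, MonoidHom.comp_apply, MonoidHom.comp_apply, ← map_mul, ← map_mul]
            rfl
          have h3 := mem_Sp r₂ ⟨_, h1⟩
          rw [h2, Units.val_mul, Units.val_mul] at h3
          exact h3
        | zero => rw [mul_zero, zero_mul]; exact zero_mem _
        | add x y _ _ hx hy => rw [mul_add, add_mul]; exact add_mem hx hy
        | smul c x _ hx => rw [mul_smul_comm, smul_mul_assoc]; exact Submodule.smul_mem _ _ hx
      exact key _ (gam_snd r₁ r₂ (hM h))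
    · have h1 : (g : G)⁻¹ * w * (g : G) ∈ U ⊓ N := by
        refine ⟨U.mul_mem (U.mul_mem (U.inv_mem g.2) w.2.1) g.2, ?_⟩
        have := (inferInstance : N.Normal).conj_mem w w.2.2 (g : G)⁻¹
        rwa [inv_inv] at this
      have h2 := hMtr ⟨_, h1⟩ h
      have h3 := hMtr w ⟨g * h * g⁻¹, (inferInstance : N.Normal).conj_mem h h.2 g⟩
      rw [mul_sub, Matrix.trace_sub, ← h3, sub_eq_zero]
      have h4 : (r₂ ⟨_, h1⟩ : GL (Fin n) k) = ρ₂ g⁻¹ * r₂ w * ρ₂ g := by
        rw [hr₂, MonoidHom.comp_apply, MonoidHom.comp_apply, ← map_mul, ← map_mul]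
        rfl
      rw [h4] at h2
      have h5 : ((r₂ w : Matrix (Fin n) (Fin n) k) * ((ρ₂ g : Matrix (Fin n) (Fin n) k) * M h *
          ((ρ₂ g⁻¹ : GL (Fin n) k) : Matrix (Fin n) (Fin n) k))).trace =
          (((ρ₂ g⁻¹ * r₂ w * ρ₂ g : GL (Fin n) k) : Matrix (Fin n) (Fin n) k) * M h).trace := by
        rw [← mul_assoc, Matrix.trace_mul_comm, Units.val_mul, Units.val_mul]
        simp only [mul_assoc]
      rw [h5, ← h2]
      have h6 := hconj g g.2 (⟨(g : G)⁻¹ * w * g, h1.2⟩ * h)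
      rw [← Units.val_mul, ← Units.val_mul]
      have e1 : r₁ ⟨_, h1⟩ * ρ₁ h = ρ₁ (⟨(g : G)⁻¹ * w * g, h1.2⟩ * h) := by
        rw [map_mul]; rfl
      have e2 : r₁ w * ρ₁ ⟨g * h * g⁻¹, (inferInstance : N.Normal).conj_mem h h.2 g⟩ =
          ρ₁ ⟨(g : G) * ((⟨(g : G)⁻¹ * w * g, h1.2⟩ * h : N) : G) * (g : G)⁻¹,
            (inferInstance : N.Normal).conj_mem _ (⟨(g : G)⁻¹ * w * g, h1.2⟩ * h : N).2 g⟩ := by
        rw [hr₁, MonoidHom.comp_apply, ← map_mul]
        congr 1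
        apply Subtype.ext
        simp only [Subgroup.coe_mul, Subgroup.coe_inclusion, Subgroup.coe_inv]
        group
      rw [e1, e2]
      exact h6.symm
  -- definition
  choose cu hcu ch hch hdec using hUN
  let F : G → Matrix (Fin n) (Fin n) k := fun x =>
    (ρ₂ ⟨cu x, hcu x⟩ : Matrix (Fin n) (Fin n) k) * M ⟨ch x, hch x⟩
  have hF : ∀ (u : U) (h : N), F (u * h) = (ρ₂ u : Matrix (Fin n) (Fin n) k) * M h := by
    intro u h
    have h1 := hdec ((u : G) * h)
    have hw : (cu ((u : G) * h))⁻¹ * u ∈ U ⊓ N := by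
      refine ⟨U.mul_mem (U.inv_mem (hcu _)) u.2, ?_⟩
      have h2 : (cu ((u : G) * h))⁻¹ * u = ch ((u : G) * h) * (h : G)⁻¹ := by
        rw [inv_mul_eq_iff_eq_mul, ← mul_assoc, eq_mul_inv_iff_mul_eq]
        exact h1
      rw [h2]
      exact N.mul_mem (hch _) (N.inv_mem h.2)
    have h3 : (⟨ch ((u : G) * h), hch _⟩ : N) = ⟨(cu ((u : G) * h))⁻¹ * u, hw.2⟩ * h := by
      apply Subtype.ext
      show ch ((u : G) * h) = (cu ((u : G) * h))⁻¹ * u * h
      rw [mul_assoc, eq_inv_mul_iff_mul_eq]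
      exact h1.symm
    have h4 := hMw ⟨_, hw⟩
    show (ρ₂ ⟨cu _, hcu _⟩ : Matrix (Fin n) (Fin n) k) * M ⟨ch _, hch _⟩ = _
    rw [h3, hMmul, h4, ← mul_assoc, ← Units.val_mul, ← map_mul]
    have h5 : (⟨cu ((u : G) * h), hcu _⟩ : U) * ⟨(cu ((u : G) * h))⁻¹ * u, hw.1⟩ = u := by
      apply Subtype.ext
      show cu ((u : G) * h) * ((cu ((u : G) * h))⁻¹ * u) = u
      rw [mul_inv_cancel_left]
    rw [h5]
  let R : G →* Matrix (Fin n) (Fin n) k :=
    { toFun := F
      map_one' := by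
        have := hF 1 1
        rw [Subgroup.coe_one, Subgroup.coe_one, mul_one, map_one, Units.val_one, one_mul, hM1] at this
        exact this
      map_mul' := by
        intro x y
        obtain ⟨u, h, hx⟩ : ∃ (u : U) (h : N), x = u * h := ⟨⟨_, hcu x⟩, ⟨_, hch x⟩, hdec x⟩
        obtain ⟨u', h', hy⟩ : ∃ (u : U) (h : N), y = u * h := ⟨⟨_, hcu y⟩, ⟨_, hch y⟩, hdec y⟩
        have hc : (u' : G)⁻¹ * h * u' ∈ N := by
          have := (inferInstance : N.Normal).conj_mem h h.2 (u' : G)⁻¹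
          rwa [inv_inv] at this
        have h1 : x * y = ((u * u' : U) : G) * ((⟨_, hc⟩ * h' : N) : G) := by
          rw [hx, hy, Subgroup.coe_mul, Subgroup.coe_mul]
          group
        rw [h1, hF, hx, hy, hF, hF, hMmul]
        have h3 : (⟨((u'⁻¹ : U) : G) * h * ((u'⁻¹ : U) : G)⁻¹,
            (inferInstance : N.Normal).conj_mem h h.2 _⟩ : N) = ⟨_, hc⟩ := by
          apply Subtype.ext
          show ((u'⁻¹ : U) : G) * h * ((u'⁻¹ : U) : G)⁻¹ = (u' : G)⁻¹ * h * u'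
          rw [Subgroup.coe_inv, inv_inv]
        have h2 : ((ρ₂ u'⁻¹ : GL (Fin n) k) : Matrix (Fin n) (Fin n) k) * M h *
            (ρ₂ u' : Matrix (Fin n) (Fin n) k) = M ⟨_, hc⟩ := by
          have e : (ρ₂ u' : Matrix (Fin n) (Fin n) k) =
              ((ρ₂ (u'⁻¹)⁻¹ : GL (Fin n) k) : Matrix (Fin n) (Fin n) k) := by rw [inv_inv]
          rw [e, ← h3]
          exact hMconj u'⁻¹ h
        rw [← h2, map_mul, Units.val_mul]
        have h4 : (ρ₂ u' : Matrix (Fin n) (Fin n) k) * ((ρ₂ u'⁻¹ : GL (Fin n) k) : Matrix (Fin n) (Fin n) k) = 1 := by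
          rw [← Units.val_mul, ← map_mul, mul_inv_cancel, map_one, Units.val_one]
        calc (ρ₂ u : Matrix (Fin n) (Fin n) k) * (ρ₂ u' : Matrix (Fin n) (Fin n) k) *
            (((ρ₂ u'⁻¹ : GL (Fin n) k) : Matrix (Fin n) (Fin n) k) * M h * (ρ₂ u' : Matrix (Fin n) (Fin n) k) * M h')
            = (ρ₂ u : Matrix (Fin n) (Fin n) k) * ((ρ₂ u' : Matrix (Fin n) (Fin n) k) *
              ((ρ₂ u'⁻¹ : GL (Fin n) k) : Matrix (Fin n) (Fin n) k)) * M h * (ρ₂ u' : Matrix (Fin n) (Fin n) k) * M h' := by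
              simp only [mul_assoc]
          _ = _ := by rw [h4, mul_one]; simp only [mul_assoc] }
  refine ⟨R.toHomUnits, fun u => ?_, fun h => ?_⟩
  · apply Units.ext
    rw [MonoidHom.coe_toHomUnits]
    have := hF u 1
    rw [Subgroup.coe_one, mul_one, hM1, mul_one] at this
    exact this
  · rw [MonoidHom.coe_toHomUnits]
    have := hF 1 h
    rw [Subgroup.coe_one, one_mul, map_one, Units.val_one, one_mul] at this
    have h2 : R h = M h := this
    rw [h2]
    exact hM h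

end glue

end Pool.Agent.Y803.PT
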