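import Pool.Agent.Y803.PT.Glue

/-! The patching lemma for a compact group. -/

set_option autoImplicit false
set_option linter.all false

namespace Pool.Agent.Y803.PT

open Matrix Module Pool.Agent.Y800 Topology

section

variable {G : Type} [Group G] [TopologicalSpace G] [IsTopologicalGroup G] [CompactSpace G]
variable {k : Type} [Field k] [CharZero k] [TopologicalSpace k] [IsTopologicalRing k] {n : ℕ}

/-- the traces agree on conjugate elements -/
def Compat {U V : Subgroup G} (ρ : U →* GL (Fin n) k) (σ : V →* GL (Fin n) k) : Prop :=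
  ∀ (x : G) (u : U) (hu : x * u * x⁻¹ ∈ V),
    (ρ u : Matrix (Fin n) (Fin n) k).trace = (σ ⟨x * u * x⁻¹, hu⟩ : Matrix (Fin n) (Fin n) k).trace

omit [TopologicalSpace G] [IsTopologicalGroup G] [CompactSpace G] [CharZero k] [TopologicalSpace k] [IsTopologicalRing k] in
theorem Compat.eq {U V : Subgroup G} {ρ : U →* GL (Fin n) k} {σ : V →* GL (Fin n) k} (h : Compat ρ σ)
    (g : G) (hU : g ∈ U) (hV : g ∈ V) :
    (ρ ⟨g, hU⟩ : Matrix (Fin n) (Fin n) k).trace = (σ ⟨g, hV⟩ : Matrix (Fin n) (Fin n) k).trace := by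
  have h1 := h 1 ⟨g, hU⟩ (by simpa using hV)
  rw [h1]
  congr 3
  apply Subtype.ext
  simp

theorem core_open (U : Subgroup G) (hU : IsOpen (U : Set G)) : IsOpen (U.normalCore : Set G) := by
  haveI : Finite (G ⧸ U) := Subgroup.quotient_finite_of_isOpen U hU
  haveI : U.FiniteIndex := Subgroup.finiteIndex_of_finite_quotient
  haveI : U.normalCore.FiniteIndex := inferInstance
  exact Subgroup.isOpen_of_isClosed_of_finiteIndex _ (Subgroup.normalCore_isClosed U (U.isClosed_of_isOpen hU))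

/-- the span of `ρ N` is not larger than that of any open subgroup -/
def Stab {U : Subgroup G} (ρ : U →* GL (Fin n) k) (N : Subgroup G) (hNU : N ≤ U) : Prop :=
  ∀ (V : Subgroup G) (hV : V ≤ N), IsOpen (V : Set G) → ∀ h : N,
    (ρ (Subgroup.inclusion hNU h) : Matrix (Fin n) (Fin n) k) ∈
      Sp (ρ.comp (Subgroup.inclusion (hV.trans hNU)))

omit [TopologicalSpace G] [IsTopologicalGroup G] [CompactSpace G] [CharZero k] [TopologicalSpace k] [IsTopologicalRing k] in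
theorem Sp_mono {U V W : Subgroup G} (ρ : U →* GL (Fin n) k) (hV : V ≤ U) (hW : W ≤ V) :
    Sp (ρ.comp (Subgroup.inclusion (hW.trans hV))) ≤ Sp (ρ.comp (Subgroup.inclusion hV)) := by
  unfold Sp
  refine Submodule.span_mono ?_
  rintro _ ⟨w, rfl⟩
  exact ⟨Subgroup.inclusion hW w, rfl⟩

omit [CharZero k] [TopologicalSpace k] [IsTopologicalRing k] in
theorem exists_stable (U : Subgroup G) (hU : IsOpen (U : Set G)) (ρ : U →* GL (Fin n) k) :
    ∃ (N : Subgroup G) (hNU : N ≤ U), N.Normal ∧ IsOpen (N : Set G) ∧ Stab ρ N hNU := by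
  classical
  have hex : ∃ d : ℕ, ∃ (V : Subgroup G) (hV : V ≤ U), IsOpen (V : Set G) ∧
      finrank k (Sp (ρ.comp (Subgroup.inclusion hV))) = d := ⟨_, U, le_rfl, hU, rfl⟩
  obtain ⟨V, hV, hVo, hd⟩ := Nat.find_spec hex
  have hmin : ∀ (V' : Subgroup G) (hV' : V' ≤ U), IsOpen (V' : Set G) →
      finrank k (Sp (ρ.comp (Subgroup.inclusion hV))) ≤ finrank k (Sp (ρ.comp (Subgroup.inclusion hV'))) := by
    intro V' hV' ho
    rw [hd]
    exact Nat.find_min' hex ⟨V', hV', ho, rfl⟩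
  have hN : V.normalCore ≤ V := Subgroup.normalCore_le V
  refine ⟨V.normalCore, hN.trans hV, inferInstance, core_open V hVo, fun W hW hWo h => ?_⟩
  have h1 : Sp (ρ.comp (Subgroup.inclusion (hW.trans (hN.trans hV)))) = Sp (ρ.comp (Subgroup.inclusion hV)) :=
    Submodule.eq_of_le_of_finrank_le (Sp_mono ρ hV (hW.trans hN)) (hmin W _ hWo)
  rw [h1]
  exact mem_Sp (ρ.comp (Subgroup.inclusion hV)) (Subgroup.inclusion hN h)

omit [CharZero k] [CompactSpace G] in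
theorem continuous_of_open (U : Subgroup G) (hU : IsOpen (U : Set G)) (ρ : G →* GL (Fin n) k)
    (h : Continuous fun u : U => ρ u) : Continuous ρ := by
  refine continuous_of_continuousAt_one ρ ?_
  have h1 : IsOpenEmbedding (Subtype.val : U → G) := hU.isOpenEmbedding_subtypeVal
  have h2 := (h1.continuousAt_iff (g := ρ) (x := (1 : U))).1 h.continuousAt
  exact h2

omit [TopologicalSpace k] [IsTopologicalRing k] [TopologicalSpace G] [IsTopologicalGroup G] [CompactSpace G] in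
/-- transfer of stability between representations with equal traces -/
theorem transfer {W : Type} [Group W] (r σ : W →* GL (Fin n) k) (hss : IsSemisimpleRep σ)
    (htr : ∀ w, (r w : Matrix (Fin n) (Fin n) k).trace = (σ w : Matrix (Fin n) (Fin n) k).trace)
    (V : Subgroup W) (h : W) (hr : (r h : Matrix (Fin n) (Fin n) k) ∈ Sp (r.comp V.subtype)) :
    (σ h : Matrix (Fin n) (Fin n) k) ∈ Sp (σ.comp V.subtype) := by
  obtain ⟨b, hb⟩ := gam_fst (r.comp V.subtype) (σ.comp V.subtype) hr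
  have h1 : ((r h : Matrix (Fin n) (Fin n) k), b) ∈ Gam r σ := by
    have hle : Gam (r.comp V.subtype) (σ.comp V.subtype) ≤ Gam r σ := by
      unfold Gam
      refine Submodule.span_mono ?_
      rintro _ ⟨w, rfl⟩
      exact ⟨w, rfl⟩
    exact hle hb
  have h2 := gam_unique r σ hss htr h1 (gam_mem r σ h)
  rw [← h2]
  exact gam_snd _ _ hb

omit [TopologicalSpace k] [IsTopologicalRing k] [TopologicalSpace G] [IsTopologicalGroup G] [CompactSpace G] in
/-- restriction to the intersection with a normal subgroup -/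
theorem ss_inf (cl : Cliff) (U N : Subgroup G) [N.Normal] (ρ : U →* GL (Fin n) k) (hss : IsSemisimpleRep ρ) :
    IsSemisimpleRep (ρ.comp (Subgroup.inclusion (inf_le_left : U ⊓ N ≤ U))) := by
  have h1 := cl U k n ρ (N.subgroupOf U) hss
  intro W hW
  obtain ⟨W', hW', hc⟩ := h1 W (by
    rintro ⟨g, hg⟩ w hw
    exact hW ⟨g, ⟨g.2, hg⟩⟩ w hw)
  refine ⟨W', ?_, hc⟩
  rintro ⟨g, hg⟩ w hw
  exact hW' ⟨⟨g, hg.1⟩, hg.2⟩ w hw

omit [TopologicalSpace k] [IsTopologicalRing k] [TopologicalSpace G] [IsTopologicalGroup G] [CompactSpace G] in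
/-- Lemma A for representations of a subgroup `U`, with a normal subgroup `N` and a subgroup `V` -/
theorem lemA (cl : Cliff) (U V N : Subgroup G) [N.Normal] (ρ σ : U →* GL (Fin n) k)
    (hdec : ∀ x ∈ U, ∃ y ∈ V, ∃ p ∈ N, x = y * p ∧ y ∈ U ∧ p ∈ U)
    (hV : ∀ (y : G) (hy : y ∈ U), y ∈ V →
      (ρ ⟨y, hy⟩ : Matrix (Fin n) (Fin n) k).trace = (σ ⟨y, hy⟩ : Matrix (Fin n) (Fin n) k).trace)
    (hN : ∀ (p : G) (hp : p ∈ U), p ∈ N →
      (ρ ⟨p, hp⟩ : Matrix (Fin n) (Fin n) k).trace = (σ ⟨p, hp⟩ : Matrix (Fin n) (Fin n) k).trace)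
    (hss : IsSemisimpleRep σ)
    (hsp : ∀ (p : G) (hp : p ∈ U), p ∈ N → (ρ ⟨p, hp⟩ : Matrix (Fin n) (Fin n) k) ∈
      Sp (ρ.comp (Subgroup.inclusion (inf_le_left : U ⊓ (V ⊓ N) ≤ U)))) (x : U) :
    (ρ x : Matrix (Fin n) (Fin n) k).trace = (σ x : Matrix (Fin n) (Fin n) k).trace := by
  refine traces_extend ρ σ (V.subgroupOf U) (N.subgroupOf U) ?_ ?_ ?_ (cl U k n σ (N.subgroupOf U) hss) ?_ x
  · rintro ⟨x, hx⟩
    obtain ⟨y, hy, p, hp, h1, h2, h3⟩ := hdec x hx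
    exact ⟨⟨y, h2⟩, hy, ⟨p, h3⟩, hp, Subtype.ext h1⟩
  · rintro ⟨y, hy⟩ hy'
    exact hV y hy hy'
  · rintro ⟨y, hy⟩ hy'
    exact hN y hy hy'
  · rintro ⟨p, hp⟩ hp'
    have h1 := hsp p hp hp'
    have hle : Sp (ρ.comp (Subgroup.inclusion (inf_le_left : U ⊓ (V ⊓ N) ≤ U))) ≤
        Sp (ρ.comp (V.subgroupOf U ⊓ N.subgroupOf U).subtype) := by
      unfold Sp
      refine Submodule.span_mono ?_
      rintro _ ⟨w, rfl⟩
      exact ⟨⟨⟨w, w.2.1⟩, ⟨w.2.2.1, w.2.2.2⟩⟩, rfl⟩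
    exact hle h1

/-- **Two subgroups.** -/
theorem P1 (cl : Cliff) (ma : Masch) (U₁ : Subgroup G) (h₁ : IsOpen (U₁ : Set G)) (ρ₁ : U₁ →* GL (Fin n) k)
    (c₁ : Compat ρ₁ ρ₁) (N : Subgroup G) [N.Normal] (hNo : IsOpen (N : Set G)) (hNU : N ≤ U₁)
    (hst : Stab ρ₁ N hNU) (U₂ : Subgroup G) (h₂ : IsOpen (U₂ : Set G)) (ρ₂ : U₂ →* GL (Fin n) k)
    (ss₁ : IsSemisimpleRep ρ₁) (ss₂ : IsSemisimpleRep ρ₂) (hc₂ : Continuous ρ₂) (c₁₂ : Compat ρ₁ ρ₂)
    (hgen : ∀ x : G, ∃ u ∈ U₂, ∃ h ∈ N, x = u * h) :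
    ∃ ρ : G →* GL (Fin n) k, Continuous ρ ∧ IsSemisimpleRep ρ ∧ (∀ u : U₂, ρ u = ρ₂ u) ∧
      (∀ u : U₁, (ρ u : Matrix (Fin n) (Fin n) k).trace = (ρ₁ u : Matrix (Fin n) (Fin n) k).trace) ∧
      Stab (ρ.comp U₁.subtype) N hNU := by
  have hnorm : N.Normal := inferInstance
  obtain ⟨ρ, hρ₂, hρN⟩ := glue N U₂ hgen (ρ₁.comp (Subgroup.inclusion hNU)) ρ₂
    (fun w => c₁₂.eq w (hNU w.2.2) w.2.1)
    (ss_inf cl U₂ N ρ₂ ss₂)
    (fun h => hst (U₂ ⊓ N) inf_le_right (by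
      rw [Subgroup.coe_inf]; exact h₂.inter hNo) h)
    (fun g _ h => (c₁ g ⟨h, hNU h.2⟩ (hNU (hnorm.conj_mem h h.2 g))).symm)
  have hcont : Continuous ρ := by
    refine continuous_of_open U₂ h₂ ρ ?_
    have : (fun u : U₂ => ρ u) = ρ₂ := funext fun u => hρ₂ u
    rw [this]
    exact hc₂
  have hss : IsSemisimpleRep ρ := by
    haveI : Finite (G ⧸ U₂) := Subgroup.quotient_finite_of_isOpen U₂ h₂
    haveI : U₂.FiniteIndex := Subgroup.finiteIndex_of_finite_quotient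
    refine ma G k n ρ U₂ ?_
    have : ρ.comp U₂.subtype = ρ₂ := MonoidHom.ext fun u => hρ₂ u
    rw [this]
    exact ss₂
  have htrN : ∀ h : N, (ρ h : Matrix (Fin n) (Fin n) k).trace =
      (ρ₁ (Subgroup.inclusion hNU h) : Matrix (Fin n) (Fin n) k).trace := by
    intro h
    have h1 := gam_tr _ _ 1 1 (fun w => by
      rw [one_mul, one_mul]
      exact c₁₂.eq w (hNU w.2.2) w.2.1) (hρN h)
    rw [one_mul, one_mul] at h1
    exact h1.symm
  have hstρ : Stab (ρ.comp U₁.subtype) N hNU := by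
    intro V hV hVo h
    have h1 := transfer (ρ₁.comp (Subgroup.inclusion hNU)) (ρ.comp N.subtype) (cl G k n ρ N hss)
      (fun w => (htrN w).symm) (V.subgroupOf N) h (by
        have h2 := hst V hV hVo h
        have hle : Sp (ρ₁.comp (Subgroup.inclusion (hV.trans hNU))) ≤
            Sp ((ρ₁.comp (Subgroup.inclusion hNU)).comp (V.subgroupOf N).subtype) := by
          unfold Sp
          refine Submodule.span_mono ?_
          rintro _ ⟨w, rfl⟩
          exact ⟨⟨⟨w, hV w.2⟩, w.2⟩, rfl⟩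
        exact hle h2)
    have hle : Sp ((ρ.comp N.subtype).comp (V.subgroupOf N).subtype) ≤
        Sp ((ρ.comp U₁.subtype).comp (Subgroup.inclusion (hV.trans hNU))) := by
      unfold Sp
      refine Submodule.span_mono ?_
      rintro _ ⟨w, rfl⟩
      exact ⟨⟨w.1.1, w.2⟩, rfl⟩
    exact hle h1
  refine ⟨ρ, hcont, hss, hρ₂, fun u => ?_, hstρ⟩
  -- Lemma A on `U₁`
  symm
  refine lemA cl U₁ U₂ N ρ₁ (ρ.comp U₁.subtype) ?_ ?_ ?_ ?_ ?_ u
  · intro x hx
    obtain ⟨y, hy, p, hp, h1⟩ := hgen x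
    have hpU := hNU hp
    refine ⟨y, hy, p, hp, h1, ?_, hpU⟩
    have : y = x * p⁻¹ := by rw [h1]; group
    rw [this]
    exact U₁.mul_mem hx (U₁.inv_mem hpU)
  · intro y hy hy2
    rw [c₁₂.eq y hy hy2]
    show _ = (ρ y : Matrix (Fin n) (Fin n) k).trace
    rw [← hρ₂ ⟨y, hy2⟩]
  · intro p hp hpN
    exact (htrN ⟨p, hpN⟩).symm
  · -- semisimple
    haveI : Finite (G ⧸ U₁) := Subgroup.quotient_finite_of_isOpen U₁ h₁
    have h5 := cl G k n ρ N hss
    haveI : (N.subgroupOf U₁).FiniteIndex := by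
      haveI : Finite (G ⧸ N) := Subgroup.quotient_finite_of_isOpen N hNo
      haveI : N.FiniteIndex := Subgroup.finiteIndex_of_finite_quotient
      infer_instance
    refine ma U₁ k n _ (N.subgroupOf U₁) ?_
    intro W hW
    obtain ⟨W', hW', hc⟩ := h5 W (by
      rintro ⟨g, hg⟩ w hw
      exact hW ⟨⟨g, hNU hg⟩, hg⟩ w hw)
    refine ⟨W', ?_, hc⟩
    rintro ⟨⟨g, hg'⟩, hg⟩ w hw
    exact hW' ⟨g, hg⟩ w hw
  · intro p hp hpN
    have h6 := hst (U₂ ⊓ N) inf_le_right (by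
      rw [Subgroup.coe_inf]; exact h₂.inter hNo) ⟨p, hpN⟩
    have hle : Sp (ρ₁.comp (Subgroup.inclusion ((inf_le_right : U₂ ⊓ N ≤ N).trans hNU))) ≤
        Sp (ρ₁.comp (Subgroup.inclusion (inf_le_left : U₁ ⊓ (U₂ ⊓ N) ≤ U₁))) := by
      unfold Sp
      refine Submodule.span_mono ?_
      rintro _ ⟨w, rfl⟩
      exact ⟨⟨w, ⟨hNU w.2.2, w.2⟩⟩, rfl⟩
    exact hle h6

end

end Pool.Agent.Y803.PT
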