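import Pool.Agent.Y803.PT.Arith

/-! The isomorphisms, uniqueness, and the local conditions. -/

set_option autoImplicit false
set_option linter.all false

namespace Pool.Agent.Y803.PT

open Matrix Module Pool.Agent.Y800 Topology NumberField IsDedekindDomain Pool.Agent.W401.Cheb Pool.Agent.W401.Frob

/-- isomorphism of representations -/
def Iso {H : Type} [Group H] {k : Type} [Field k] {n : ℕ} (ρ σ : H →* GL (Fin n) k) : Prop :=
  ∃ x : GL (Fin n) k, ∀ h, ρ h = x * σ h * x⁻¹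

theorem Iso.tr {H : Type} [Group H] {k : Type} [Field k] {n : ℕ} {ρ σ : H →* GL (Fin n) k}
    (h : Iso ρ σ) (g : H) : (ρ g : Matrix (Fin n) (Fin n) k).trace = (σ g : Matrix (Fin n) (Fin n) k).trace := by
  obtain ⟨x, hx⟩ := h
  rw [hx g, Units.val_mul, Units.val_mul]
  exact Matrix.trace_units_conj x _

section group

variable {G : Type} [Group G] [TopologicalSpace G] [IsTopologicalGroup G] [CompactSpace G]
variable {k : Type} [Field k] [CharZero k] [TopologicalSpace k] [IsTopologicalRing k] {n : ℕ}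

theorem open_res_ss (cl : Cliff) (ma : Masch) (U : Subgroup G) (hU : IsOpen (U : Set G))
    (ρ : G →* GL (Fin n) k) (hss : IsSemisimpleRep ρ) : IsSemisimpleRep (ρ.comp U.subtype) := by
  obtain ⟨N, hNU, hNn, hNo, -⟩ := exists_stable U hU (1 : U →* GL (Fin n) k)
  haveI := hNn
  haveI : Finite (G ⧸ N) := Subgroup.quotient_finite_of_isOpen N hNo
  haveI : N.FiniteIndex := Subgroup.finiteIndex_of_finite_quotient
  exact res_ss cl ma U N hNU ρ hss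

/-- two subgroups, with isomorphisms and uniqueness -/
theorem two (cl : Cliff) (ma : Masch) (bn : BN) (U₁ : Subgroup G) (h₁ : IsOpen (U₁ : Set G))
    (ρ₁ : U₁ →* GL (Fin n) k) (ss₁ : IsSemisimpleRep ρ₁) (c₁ : Compat ρ₁ ρ₁) :
    ∃ N : Subgroup G, N.Normal ∧ IsOpen (N : Set G) ∧ N ≤ U₁ ∧
      ∀ (U₂ : Subgroup G) (h₂ : IsOpen (U₂ : Set G)) (ρ₂ : U₂ →* GL (Fin n) k)
        (hc₂ : Continuous ρ₂) (ss₂ : IsSemisimpleRep ρ₂) (c₁₂ : Compat ρ₁ ρ₂)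
        (hgen : ∀ x : G, ∃ u ∈ U₂, ∃ h ∈ N, x = u * h),
      ∃ ρ : G →* GL (Fin n) k, Continuous ρ ∧ IsSemisimpleRep ρ ∧ Iso (ρ.comp U₁.subtype) ρ₁ ∧
        Iso (ρ.comp U₂.subtype) ρ₂ ∧
        ∀ ρ' : G →* GL (Fin n) k, IsSemisimpleRep ρ' → Iso (ρ'.comp U₁.subtype) ρ₁ →
          Iso (ρ'.comp U₂.subtype) ρ₂ → Iso ρ' ρ := by
  obtain ⟨N, hNU, hNn, hNo, hst⟩ := exists_stable U₁ h₁ ρ₁
  haveI := hNn
  refine ⟨N, hNn, hNo, hNU, fun U₂ h₂ ρ₂ hc₂ ss₂ c₁₂ hgen => ?_⟩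
  obtain ⟨ρ, hρc, hρss, hρ₂, hρ₁, hρst⟩ := P1 cl ma U₁ h₁ ρ₁ c₁ N hNo hNU hst U₂ h₂ ρ₂ ss₁ ss₂ hc₂ c₁₂ hgen
  have hiso₁ : Iso (ρ.comp U₁.subtype) ρ₁ := bn U₁ k n _ _ (open_res_ss cl ma U₁ h₁ ρ hρss) ss₁ hρ₁
  refine ⟨ρ, hρc, hρss, hiso₁, ⟨1, fun u => by rw [one_mul, inv_one, mul_one]; exact hρ₂ u⟩, ?_⟩
  intro ρ' ss' i₁ i₂
  refine bn G k n ρ' ρ ss' hρss fun g => ?_
  symm
  refine traces_extend ρ ρ' U₂ N hgen (fun y hy => ?_) (fun p hp => ?_) (cl G k n ρ' N ss') ?_ g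
  · have h3 := i₂.tr ⟨y, hy⟩
    rw [← hρ₂ ⟨y, hy⟩] at h3
    exact h3.symm
  · have h3 := i₁.tr ⟨p, hNU hp⟩
    rw [← hρ₁ ⟨p, hNU hp⟩] at h3
    exact h3.symm
  · intro p hp
    have h1 := hρst (U₂ ⊓ N) inf_le_right (by
      rw [Subgroup.coe_inf]; exact h₂.inter hNo) ⟨p, hp⟩
    have hle : Sp ((ρ.comp U₁.subtype).comp (Subgroup.inclusion ((inf_le_right : U₂ ⊓ N ≤ N).trans hNU))) ≤
        Sp (ρ.comp (U₂ ⊓ N).subtype) := by
      unfold Sp
      refine Submodule.span_mono ?_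
      rintro _ ⟨w, rfl⟩
      exact ⟨w, rfl⟩
    exact hle h1

/-- families, with isomorphisms and uniqueness -/
theorem fam (cl : Cliff) (ma : Masch) (bn : BN) {I : Type*} (U : I → Subgroup G)
    (hU : ∀ i, IsOpen (U i : Set G))
    (r : ∀ i, U i →* GL (Fin n) k) (hr : ∀ i, Continuous (r i)) (hss : ∀ i, IsSemisimpleRep (r i))
    (hc : ∀ i j, Compat (r i) (r j))
    (hgen : ∀ N : Subgroup G, N.Normal → IsOpen (N : Set G) → ∃ i, ∀ x : G, ∃ u ∈ U i, ∃ h ∈ N, x = u * h) :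
    ∃ ρ : G →* GL (Fin n) k, Continuous ρ ∧ IsSemisimpleRep ρ ∧ (∀ i, Iso (ρ.comp (U i).subtype) (r i)) ∧
      ∀ ρ' : G →* GL (Fin n) k, IsSemisimpleRep ρ' → (∀ i, Iso (ρ'.comp (U i).subtype) (r i)) →
        Iso ρ' ρ := by
  obtain ⟨ρ, hρc, hρss, htr⟩ := P2 cl ma U hU r hr hss hc hgen
  refine ⟨ρ, hρc, hρss, fun i => bn (U i) k n _ _ (open_res_ss cl ma (U i) (hU i) ρ hρss) (hss i) (htr i), ?_⟩
  intro ρ' ss' h'
  refine bn G k n ρ' ρ ss' hρss fun g => ?_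
  refine uniq cl U hU hgen ρ' ρ hρss (fun i u hu => ?_) g
  have h3 := (h' i).tr ⟨u, hu⟩
  rw [← htr i ⟨u, hu⟩] at h3
  exact h3

end group

section local_

variable {K : Type} [Field K] [NumberField K]

/-- the Galois group is transitive on the maximal ideals above a place -/
theorem trans (v : HeightOneSpectrum (𝓞 K)) (Q Q' : Ideal (𝓞 (AlgebraicClosure K))) (hQ : Over v Q)
    (hQ' : Over v Q') : ∃ ρ : GK K, Q' = tr ρ Q := by
  classical
  have : SMulCommClass (GK K) (𝓞 K) (𝓞 (AlgebraicClosure K)) := smulComm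
  have : Algebra.IsInvariant (𝓞 K) (𝓞 (AlgebraicClosure K)) (GK K) := isInv
  let _ : TopologicalSpace (𝓞 (AlgebraicClosure K)) := ⊥
  have : DiscreteTopology (𝓞 (AlgebraicClosure K)) := ⟨rfl⟩
  have : ContinuousSMul (GK K) (𝓞 (AlgebraicClosure K)) := by
    rw [continuousSMul_iff_stabilizer_isOpen]
    intro x
    have h1 := stabilizer_isOpen_of_isIntegral (K := K) (x : AlgebraicClosure K)
    convert h1 using 2
    ext g
    rw [MulAction.mem_stabilizer_iff, MulAction.mem_stabilizer_iff]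
    constructor
    · intro h
      exact congrArg (fun z : (𝓞 (AlgebraicClosure K)) => (z : AlgebraicClosure K)) h
    · intro h
      exact RingOfIntegers.ext h
  obtain ⟨hQm, hQv⟩ := hQ
  obtain ⟨hQm', hQv'⟩ := hQ'
  obtain ⟨ρ, hρ⟩ := Algebra.IsInvariant.exists_smul_of_under_eq_of_profinite (A := 𝓞 K)
    (G := GK K) Q Q' (hQv.trans hQv'.symm)
  refine ⟨ρ, ?_⟩
  rw [hρ]
  ext x
  rw [mem_tr]
  exact Ideal.mem_pointwise_smul_iff_inv_smul_mem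

theorem frb_conj_inv {v : HeightOneSpectrum (𝓞 K)} {Q : Ideal (𝓞 (AlgebraicClosure K))} {σ τ : GK K}
    (h : Frb v (tr τ Q) σ) : Frb v Q (τ⁻¹ * σ * τ) := by
  intro x
  have h1 := h (τ • x)
  rw [mem_tr, smul_sub, smul_pow', smul_smul, smul_smul, smul_smul, inv_mul_cancel, one_smul] at h1
  exact h1

end local_

end Pool.Agent.Y803.PT
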